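import Pool.Agent.X86.GS.Expo
import Pool.Agent.X86.CF.Basic

set_option autoImplicit false

open Filter Topology Asymptotics
open Pool.Agent.X86.CF

namespace Pool.Agent.X86.GS

section
variable (τ : ℝ)

/-- exponents -/
noncomputable def sq (k : ℕ) : ℕ := ⌈4 / (τ - 1) * τ ^ k⌉₊

noncomputable def mq (k : ℕ) : ℕ := sq τ (k + 1) - sq τ k

noncomputable def nq : ℕ → ℕ
  | 0 => 0
  | k + 1 => nq k + (mq τ k - 1)

end

section
variable {τ : ℝ} (hτ : 1 < τ)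
include hτ

lemma sq_ge (k : ℕ) : 4 / (τ - 1) * τ ^ k ≤ sq τ k := Nat.le_ceil _

lemma sq_lt (k : ℕ) : (sq τ k : ℝ) < 4 / (τ - 1) * τ ^ k + 1 := by
  have : 0 < τ - 1 := by linarith
  exact Nat.ceil_lt_add_one (by positivity)

lemma sq_diff (k : ℕ) : sq τ k + 3 ≤ sq τ (k + 1) := by
  have h1 := sq_lt hτ k
  have h2 := sq_ge hτ (k + 1)
  have h3 : 0 < τ - 1 := by linarith
  have h4 : 4 / (τ - 1) * τ ^ (k + 1) = 4 / (τ - 1) * τ ^ k + 4 * τ ^ k := by
    rw [pow_succ]; field_simp; ring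
  have h5 : 1 ≤ τ ^ k := one_le_pow₀ hτ.le
  have h6 : (sq τ k : ℝ) + 3 < sq τ (k + 1) := by linarith
  have h7 : ((sq τ k + 3 : ℕ) : ℝ) < ((sq τ (k + 1) : ℕ) : ℝ) := by push_cast; exact h6
  exact (by exact_mod_cast h7 : sq τ k + 3 < sq τ (k + 1)).le

lemma mq_ge (k : ℕ) : 3 ≤ mq τ k := by
  have := sq_diff hτ k
  unfold mq
  omega

lemma sq_succ (k : ℕ) : sq τ (k + 1) = sq τ k + mq τ k := by
  have := sq_diff hτ k
  unfold mq
  omega

lemma nq_eq (k : ℕ) : nq τ k + k + sq τ 0 = sq τ k := by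
  induction k with
  | zero => simp [nq]
  | succ k ih =>
    have h1 := mq_ge hτ k
    have h2 := sq_succ hτ k
    simp only [nq]
    omega

lemma sq_four (k : ℕ) : 4 * (k:ℝ) ≤ sq τ k := by
  have h1 := sq_ge hτ k
  have h3 : 0 < τ - 1 := by linarith
  have h2 : 1 + (k:ℝ) * (τ - 1) ≤ τ ^ k := by
    have := one_add_mul_le_pow (a := τ - 1) (by linarith) k
    simpa using this
  have h4 : 4 / (τ - 1) * (1 + (k:ℝ) * (τ - 1)) ≤ 4 / (τ - 1) * τ ^ k := by gcongr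
  have h5 : 4 / (τ - 1) * (1 + (k:ℝ) * (τ - 1)) = 4 / (τ - 1) + 4 * k := by field_simp
  have h6 : 0 < 4 / (τ - 1) := by positivity
  linarith

lemma sq_tau (k : ℕ) : (sq τ (k + 1) : ℝ) ≤ τ * sq τ k + 1 := by
  have h1 := sq_lt hτ (k + 1)
  have h2 := sq_ge hτ k
  have h3 : 4 / (τ - 1) * τ ^ (k + 1) = τ * (4 / (τ - 1) * τ ^ k) := by rw [pow_succ]; ring
  have h4 : τ * (4 / (τ - 1) * τ ^ k) ≤ τ * sq τ k := by gcongr
  linarith

lemma nq_ge (k : ℕ) : k ≤ nq τ k := by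
  induction k with
  | zero => exact Nat.zero_le _
  | succ k ih =>
    have h1 := mq_ge hτ k
    simp only [nq]
    omega

end

/-- binary floor -/
noncomputable def D (t : ℝ) (n : ℕ) : ℕ := ⌊2 ^ n * t⌋₊

noncomputable def cq (τ t : ℝ) (k : ℕ) : ℕ := D t (nq τ (k + 1)) % 2 ^ (mq τ k - 1)

/-- digits of the continued fraction -/
noncomputable def aq (τ t : ℝ) (k : ℕ) : ℕ := 2 ^ mq τ k + 2 * cq τ t k + (if k = 0 then 1 else 0)

lemma D_div (t : ℝ) (n m : ℕ) : D t (n + m) / 2 ^ m = D t n := by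
  unfold D
  have h1 : ((2 ^ m : ℕ) : ℝ) = (2:ℝ) ^ m := by push_cast; rfl
  rw [← Nat.floor_div_natCast, h1]
  congr 1
  rw [pow_add]
  field_simp

lemma D_rec (τ t : ℝ) (k : ℕ) : D t (nq τ (k + 1)) = 2 ^ (mq τ k - 1) * D t (nq τ k) + cq τ t k := by
  unfold cq
  have h1 : D t (nq τ (k + 1)) / 2 ^ (mq τ k - 1) = D t (nq τ k) := D_div t _ _
  rw [← h1]
  exact (Nat.div_add_mod _ _).symm

lemma D_zero {t : ℝ} (h1 : t < 1) : D t 0 = 0 := by
  unfold D
  rw [pow_zero, one_mul, Nat.floor_eq_zero]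
  exact h1

lemma D_eq_of {τ t t' : ℝ} (h1 : t < 1) (h1' : t' < 1) (k : ℕ)
    (h : ∀ j < k, cq τ t j = cq τ t' j) : D t (nq τ k) = D t' (nq τ k) := by
  induction k with
  | zero => simp only [nq]; rw [D_zero h1, D_zero h1']
  | succ k ih =>
    rw [D_rec, D_rec, ih (fun j hj => h j (by omega)), h k (by omega)]

lemma close_of_D {t t' : ℝ} (h0 : 0 ≤ t) (h0' : 0 ≤ t') (n : ℕ) (h : D t n = D t' n) :
    |t - t'| ≤ (1 / 2 : ℝ) ^ n := by
  unfold D at h
  have h2 : (0:ℝ) < 2 ^ n := by positivity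
  have a1 := Nat.floor_le (show 0 ≤ 2 ^ n * t by positivity)
  have a2 := Nat.lt_floor_add_one (2 ^ n * t)
  have b1 := Nat.floor_le (show 0 ≤ 2 ^ n * t' by positivity)
  have b2 := Nat.lt_floor_add_one (2 ^ n * t')
  rw [h] at a1 a2
  rw [one_div, inv_pow, ← one_div, le_div_iff₀ h2]
  have h3 : |t - t'| * 2 ^ n = |2 ^ n * t - 2 ^ n * t'| := by
    rw [← mul_sub, abs_mul, abs_of_pos h2, mul_comm]
  rw [h3, abs_le]
  constructor <;> linarith

lemma cq_lt (τ t : ℝ) (k : ℕ) : cq τ t k < 2 ^ (mq τ k - 1) := Nat.mod_lt _ (by positivity)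

section
variable {τ : ℝ} (hτ : 1 < τ)
include hτ

lemma aq_ge (t : ℝ) (k : ℕ) : 2 ^ mq τ k ≤ aq τ t k := by
  unfold aq; omega

lemma aq_le (t : ℝ) (k : ℕ) : aq τ t k ≤ 2 ^ (mq τ k + 1) := by
  have h1 := cq_lt τ t k
  have h2 := mq_ge hτ k
  obtain ⟨m, hm⟩ : ∃ m, mq τ k = m + 1 := ⟨mq τ k - 1, by omega⟩
  unfold aq
  rw [hm] at h1 ⊢
  simp only [Nat.add_sub_cancel] at h1
  rw [pow_succ 2 (m + 1), pow_succ 2 m]
  split_ifs <;> omega

lemma aq_pos (t : ℝ) (k : ℕ) : 1 ≤ aq τ t k :=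
  le_trans (Nat.one_le_two_pow) (aq_ge hτ t k)

end

lemma first_diff {τ t t' : ℝ} (hτ : 1 < τ) (ht : t ∈ Set.Ico (0:ℝ) 1) (ht' : t' ∈ Set.Ico (0:ℝ) 1)
    (hne : t ≠ t') : ∃ k, cq τ t k ≠ cq τ t' k ∧ ∀ j < k, cq τ t j = cq τ t' j := by
  have hex : ∃ k, cq τ t k ≠ cq τ t' k := by
    by_contra hcon
    push Not at hcon
    apply hne
    have h1 : ∀ k : ℕ, |t - t'| ≤ (1 / 2 : ℝ) ^ k := by
      intro k
      have h2 := close_of_D ht.1 ht'.1 _ (D_eq_of (τ := τ) ht.2 ht'.2 k (fun j _ => hcon j))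
      refine h2.trans ?_
      exact pow_le_pow_of_le_one (by norm_num) (by norm_num) (nq_ge hτ k)
    have h2 : |t - t'| ≤ 0 :=
      ge_of_tendsto' (tendsto_pow_atTop_nhds_zero_of_lt_one (by norm_num) (by norm_num)) h1
    have h3 : |t - t'| = 0 := le_antisymm h2 (abs_nonneg _)
    rw [abs_eq_zero] at h3
    linarith
  classical
  refine ⟨Nat.find hex, Nat.find_spec hex, fun j hj => ?_⟩
  have := Nat.find_min hex hj
  push Not at this
  exact this

/-- complete quotients -/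
noncomputable def xi {τ : ℝ} (hτ : 1 < τ) (t : ℝ) : ℕ → ℝ :=
  Classical.choose (exists_quot (aq τ t) (aq_pos hτ t))

lemma xi_spec {τ : ℝ} (hτ : 1 < τ) (t : ℝ) :
    ∀ i, 1 < xi hτ t i ∧ xi hτ t i = aq τ t i + 1 / xi hτ t (i + 1) :=
  Classical.choose_spec (exists_quot (aq τ t) (aq_pos hτ t))

noncomputable def th {τ : ℝ} (hτ : 1 < τ) (t : ℝ) : ℝ := 1 / xi hτ t 0

lemma xi_bounds {τ : ℝ} (hτ : 1 < τ) (t : ℝ) (i : ℕ) :
    (aq τ t i : ℝ) < xi hτ t i ∧ xi hτ t i < aq τ t i + 1 := by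
  have h1 := (xi_spec hτ t (i + 1)).1
  have h2 := (xi_spec hτ t i).2
  have h3 : 0 < 1 / xi hτ t (i + 1) := by positivity
  have h4 : 1 / xi hτ t (i + 1) < 1 := by rw [div_lt_one (by linarith)]; exact h1
  constructor <;> linarith

section
variable {τ : ℝ} (hτ : 1 < τ) (t : ℝ)
include hτ

lemma den_growth (k : ℕ) : 2 ^ sq τ k ≤ 2 ^ sq τ 0 * (den (R (aq τ t) k)).1 ∧
    2 ^ sq τ 0 * (den (R (aq τ t) k)).1 ≤ 2 ^ (sq τ k + 2 * k) := by
  induction k with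
  | zero => simp [R, den]
  | succ k ih =>
    obtain ⟨h1, h2⟩ := ih
    have h3 := sq_succ hτ k
    have h4 := aq_ge hτ t k
    have h5 := aq_le hτ t k
    have h6 := (den_pos (R_pos (aq_pos hτ t) k)).2
    have e1 : (den (R (aq τ t) (k + 1))).1 = aq τ t k * (den (R (aq τ t) k)).1 + (den (R (aq τ t) k)).2 := rfl
    rw [e1]
    set q := (den (R (aq τ t) k)).1
    set q' := (den (R (aq τ t) k)).2
    have h7 : 2 ^ mq τ k * q ≤ aq τ t k * q + q' := by nlinarith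
    have h8 : aq τ t k * q + q' ≤ 2 ^ (mq τ k + 2) * q := by
      have h9 : 1 ≤ 2 ^ (mq τ k + 1) := Nat.one_le_two_pow
      have h10 : 2 ^ (mq τ k + 2) = 2 ^ (mq τ k + 1) + 2 ^ (mq τ k + 1) := by rw [pow_succ 2 (mq τ k + 1)]; ring
      rw [h10]
      nlinarith
    constructor
    · calc 2 ^ sq τ (k + 1) = 2 ^ mq τ k * 2 ^ sq τ k := by rw [h3, pow_add]; ring
        _ ≤ 2 ^ mq τ k * (2 ^ sq τ 0 * q) := Nat.mul_le_mul_left _ h1
        _ = 2 ^ sq τ 0 * (2 ^ mq τ k * q) := by ring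
        _ ≤ 2 ^ sq τ 0 * (aq τ t k * q + q') := Nat.mul_le_mul_left _ h7
    · calc 2 ^ sq τ 0 * (aq τ t k * q + q') ≤ 2 ^ sq τ 0 * (2 ^ (mq τ k + 2) * q) := Nat.mul_le_mul_left _ h8
        _ = 2 ^ (mq τ k + 2) * (2 ^ sq τ 0 * q) := by ring
        _ ≤ 2 ^ (mq τ k + 2) * 2 ^ (sq τ k + 2 * k) := Nat.mul_le_mul_left _ h2
        _ = 2 ^ (sq τ (k + 1) + 2 * (k + 1)) := by rw [h3, ← pow_add]; congr 1; ring

lemma den_odd (k : ℕ) : Odd (den (R (aq τ t) k)).1 ∧ Odd (den (R (aq τ t) (k + 1))).1 := by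
  induction k with
  | zero =>
    constructor
    · simp [R, den]
    · have h1 := mq_ge hτ 0
      simp only [R, den, aq, if_true]
      have h2 : Even (2 ^ mq τ 0) := by
        rw [Nat.even_pow]; exact ⟨even_two, by omega⟩
      have h3 : Even (2 ^ mq τ 0 + 2 * cq τ t 0) := h2.add (even_two_mul _)
      simpa using h3.add_one
  | succ k ih =>
    obtain ⟨h1, h2⟩ := ih
    refine ⟨h2, ?_⟩
    have e1 : (den (R (aq τ t) (k + 1 + 1))).1 = aq τ t (k + 1) * (den (R (aq τ t) (k + 1))).1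
        + (den (R (aq τ t) k)).1 := rfl
    rw [e1]
    have h3 := mq_ge hτ (k + 1)
    have h4 : Even (aq τ t (k + 1)) := by
      unfold aq
      rw [if_neg (by omega), add_zero]
      have h2 : Even (2 ^ mq τ (k + 1)) := by
        rw [Nat.even_pow]; exact ⟨even_two, by omega⟩
      exact h2.add (even_two_mul _)
    exact (h4.mul_right _).add_odd h1

lemma cop (k : ℕ) : Nat.Coprime (num (R (aq τ t) k)).1 (den (R (aq τ t) k)).1 := by
  have h1 := det (R (aq τ t) k)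
  set P := (num (R (aq τ t) k)).1
  set P' := (num (R (aq τ t) k)).2
  set Q := (den (R (aq τ t) k)).1
  set Q' := (den (R (aq τ t) k)).2
  rw [← Nat.isCoprime_iff_coprime]
  have h2 : ((P' : ℤ) * Q - P * Q' : ℤ) = (-1) ^ (R (aq τ t) k).length := by
    unfold sg at h1
    exact_mod_cast h1
  rcases neg_one_pow_eq_or ℤ (R (aq τ t) k).length with h | h
  · rw [h] at h2
    exact ⟨-Q', P', by linarith⟩
  · rw [h] at h2
    exact ⟨Q', -P', by linarith⟩

lemma th_approx (k : ℕ) : |th hτ t - ((num (R (aq τ t) k)).1 : ℝ) / (den (R (aq τ t) k)).1| ≤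
    1 / (((den (R (aq τ t) k)).1 : ℝ) * (den (R (aq τ t) (k + 1))).1) := by
  have h1 := err (aq_pos hτ t) (xi_spec hτ t) k
  have e1 : ((den (R (aq τ t) (k + 1))).1 : ℝ) = aq τ t k * (den (R (aq τ t) k)).1 + (den (R (aq τ t) k)).2 := by
    simp only [R, den]; push_cast; rfl
  have hq1 : (1:ℝ) ≤ (den (R (aq τ t) k)).1 := by exact_mod_cast (den_pos (R_pos (aq_pos hτ t) k)).1
  have ha1 : (1:ℝ) ≤ aq τ t k := by exact_mod_cast aq_pos hτ t k
  have hq'0 : (0:ℝ) ≤ (den (R (aq τ t) k)).2 := Nat.cast_nonneg _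
  have hval : ((num (R (aq τ t) k)).1 : ℝ) / (den (R (aq τ t) k)).1 = val (R (aq τ t) k) := rfl
  rw [hval]
  unfold th
  rw [h1, add_sub_cancel_left, abs_div]
  have h2 : |sg (R (aq τ t) k)| = 1 := by unfold sg; rw [abs_pow]; simp
  rw [h2, e1]
  have h3 := (xi_bounds hτ t k).1
  have hq0 : (0:ℝ) < (den (R (aq τ t) k)).1 := by linarith
  have h4 : 0 < aq τ t k * ((den (R (aq τ t) k)).1:ℝ) + (den (R (aq τ t) k)).2 := by positivity
  have h5 : aq τ t k * ((den (R (aq τ t) k)).1:ℝ) ≤ (den (R (aq τ t) k)).1 * xi hτ t k := by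
    rw [mul_comm]; gcongr
  rw [abs_of_pos (mul_pos hq0 (by linarith))]
  apply one_div_le_one_div_of_le (mul_pos hq0 h4)
  apply mul_le_mul_of_nonneg_left _ hq0.le
  linarith

lemma log_den (k : ℕ) : ((sq τ k : ℝ) - sq τ 0) * Real.log 2 ≤ Real.log (den (R (aq τ t) k)).1 ∧
    Real.log (den (R (aq τ t) k)).1 ≤ ((sq τ k : ℝ) - sq τ 0 + 2 * k) * Real.log 2 := by
  obtain ⟨h1, h2⟩ := den_growth hτ t k
  have hq1 : 1 ≤ (den (R (aq τ t) k)).1 := (den_pos (R_pos (aq_pos hτ t) k)).1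
  have hq0 : (0:ℝ) < (den (R (aq τ t) k)).1 := by exact_mod_cast hq1
  set q := (den (R (aq τ t) k)).1
  have h1' : (2:ℝ) ^ sq τ k ≤ 2 ^ sq τ 0 * q := by exact_mod_cast h1
  have h2' : (2:ℝ) ^ sq τ 0 * q ≤ 2 ^ (sq τ k + 2 * k) := by exact_mod_cast h2
  have h3 := Real.log_le_log (by positivity) h1'
  have h4 := Real.log_le_log (by positivity) h2'
  rw [Real.log_mul (by positivity) hq0.ne', Real.log_pow, Real.log_pow] at h3
  rw [Real.log_mul (by positivity) hq0.ne', Real.log_pow, Real.log_pow] at h4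
  push_cast at h4
  constructor <;> linarith

lemma log_scaled : Tendsto (fun k => Real.log (den (R (aq τ t) k)).1 / τ ^ k) atTop
    (𝓝 (4 / (τ - 1) * Real.log 2)) := by
  have hτ0 : 0 < τ := by linarith
  have hlog : 0 < Real.log 2 := Real.log_pos (by norm_num)
  have hinv : Tendsto (fun k : ℕ => 1 / τ ^ k) atTop (𝓝 0) := by
    have h := tendsto_pow_const_div_const_pow_of_one_lt 0 hτ
    simpa using h
  have hlin : Tendsto (fun k : ℕ => (k:ℝ) / τ ^ k) atTop (𝓝 0) := by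
    have h := tendsto_pow_const_div_const_pow_of_one_lt 1 hτ
    simpa using h
  have hlow : Tendsto (fun k : ℕ => (4 / (τ - 1) - sq τ 0 * (1 / τ ^ k)) * Real.log 2) atTop
      (𝓝 ((4 / (τ - 1) - sq τ 0 * 0) * Real.log 2)) :=
    ((tendsto_const_nhds.sub (hinv.const_mul _)).mul_const _)
  have hup : Tendsto (fun k : ℕ => (4 / (τ - 1) + (1 - sq τ 0) * (1 / τ ^ k) + 2 * ((k:ℝ) / τ ^ k)) * Real.log 2)
      atTop (𝓝 ((4 / (τ - 1) + (1 - sq τ 0) * 0 + 2 * 0) * Real.log 2)) :=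
    (((tendsto_const_nhds.add (hinv.const_mul _)).add (hlin.const_mul _)).mul_const _)
  have e1 : (4 / (τ - 1) - sq τ 0 * 0) * Real.log 2 = 4 / (τ - 1) * Real.log 2 := by ring
  have e2 : (4 / (τ - 1) + (1 - sq τ 0) * 0 + 2 * 0) * Real.log 2 = 4 / (τ - 1) * Real.log 2 := by ring
  rw [e1] at hlow
  rw [e2] at hup
  refine tendsto_of_tendsto_of_tendsto_of_le_of_le hlow hup (fun k => ?_) (fun k => ?_)
  · have h1 := (log_den hτ t k).1
    have h2 := sq_ge hτ k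
    have hk : 0 < τ ^ k := by positivity
    rw [le_div_iff₀ hk]
    have h3 : (4 / (τ - 1) - sq τ 0 * (1 / τ ^ k)) * Real.log 2 * τ ^ k
        = (4 / (τ - 1) * τ ^ k - sq τ 0) * Real.log 2 := by field_simp
    rw [h3]
    refine le_trans ?_ h1
    gcongr
  · have h1 := (log_den hτ t k).2
    have h2 := sq_lt hτ k
    have hk : 0 < τ ^ k := by positivity
    rw [div_le_iff₀ hk]
    have h3 : (4 / (τ - 1) + (1 - sq τ 0) * (1 / τ ^ k) + 2 * ((k:ℝ) / τ ^ k)) * Real.log 2 * τ ^ k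
        = (4 / (τ - 1) * τ ^ k + (1 - sq τ 0) + 2 * k) * Real.log 2 := by field_simp
    rw [h3]
    refine h1.trans ?_
    apply mul_le_mul_of_nonneg_right _ hlog.le
    linarith

lemma log_ratio : Tendsto (fun k => Real.log (den (R (aq τ t) (k + 1))).1 /
    Real.log (den (R (aq τ t) k)).1) atTop (𝓝 τ) := by
  have hτ0 : 0 < τ := by linarith
  have hlog : 0 < Real.log 2 := Real.log_pos (by norm_num)
  have h1 := log_scaled hτ t
  have h2 := (tendsto_add_atTop_iff_nat 1).mpr h1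
  have hc : 4 / (τ - 1) * Real.log 2 ≠ 0 := by
    have : 0 < τ - 1 := by linarith
    positivity
  have h3 := (h2.div h1 hc).const_mul τ
  rw [div_self hc, mul_one] at h3
  refine h3.congr (fun k => ?_)
  have hk : 0 < τ ^ k := by positivity
  simp only [Pi.div_apply]
  rw [pow_succ]
  field_simp

lemma log_inf : Tendsto (fun k => Real.log (den (R (aq τ t) k)).1) atTop atTop := by
  have hlog : 0 < Real.log 2 := Real.log_pos (by norm_num)
  have h1 : Tendsto (fun k : ℕ => (4 * (k:ℝ) - sq τ 0) * Real.log 2) atTop atTop := by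
    apply Tendsto.atTop_mul_const hlog
    apply tendsto_atTop_add_const_right
    exact tendsto_natCast_atTop_atTop.const_mul_atTop (by norm_num)
  refine tendsto_atTop_mono (fun k => ?_) h1
  refine le_trans ?_ (log_den hτ t k).1
  have := sq_four hτ k
  gcongr

theorem sigma_th : sigma (fun N => S (th hτ t) N) = τ / (1 + τ) := by
  refine expo (fun k => (num (R (aq τ t) k)).1) (fun k => (den (R (aq τ t) k)).1)
    ?_ (fun k => (den_pos (R_pos (aq_pos hτ t) k)).1) (fun k => (den_odd hτ t k).1)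
    (fun k => cop hτ t k) (fun k => th_approx hτ t k) (log_inf hτ t) hτ (log_ratio hτ t)
  apply monotone_nat_of_le_succ
  intro k
  have e1 : (den (R (aq τ t) (k + 1))).1 = aq τ t k * (den (R (aq τ t) k)).1 + (den (R (aq τ t) k)).2 := rfl
  rw [e1]
  have := aq_pos hτ t k
  nlinarith

lemma th_mem : th hτ t ∈ Set.Ioo (0:ℝ) 1 := mem_Ioo_of (xi_spec hτ t)

end

/-- The expansion estimate. -/
theorem holder {τ : ℝ} (hτ : 1 < τ) {t t' : ℝ} (ht : t ∈ Set.Ico (0:ℝ) 1)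
    (ht' : t' ∈ Set.Ico (0:ℝ) 1) :
    |t - t'| ≤ 2 ^ (sq τ 0 + 2) * |th hτ t - th hτ t'| ^ (1 / (4 * τ)) := by
  have hτ0 : 0 < τ := by linarith
  rcases eq_or_ne t t' with rfl | hne
  · simp only [sub_self, abs_zero]; positivity
  obtain ⟨k, hk1, hk2⟩ := first_diff hτ ht ht' hne
  have hclose := close_of_D ht.1 ht'.1 _ (D_eq_of (τ := τ) ht.2 ht'.2 k hk2)
  have hR : R (aq τ t) k = R (aq τ t') k := by
    rw [R_eq, R_eq]
    congr 1
    apply List.map_congr_left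
    intro j hj
    rw [List.mem_range] at hj
    unfold aq
    rw [hk2 j hj]
  have f1 := quot_formula (aq_pos hτ t) (xi_spec hτ t) k
  have f2 := quot_formula (aq_pos hτ t') (xi_spec hτ t') k
  rw [← hR] at f2
  have hdet := det (R (aq τ t) k)
  have hq1 : (1:ℝ) ≤ (den (R (aq τ t) k)).1 := by exact_mod_cast (den_pos (R_pos (aq_pos hτ t) k)).1
  have hq'q : ((den (R (aq τ t) k)).2 : ℝ) ≤ (den (R (aq τ t) k)).1 := by
    exact_mod_cast (den_pos (R_pos (aq_pos hτ t) k)).2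
  have hq'0 : (0:ℝ) ≤ (den (R (aq τ t) k)).2 := Nat.cast_nonneg _
  have hgr := (den_growth hτ t k).2
  set P : ℝ := ((num (R (aq τ t) k)).1 : ℝ)
  set P' : ℝ := ((num (R (aq τ t) k)).2 : ℝ)
  set Q : ℝ := ((den (R (aq τ t) k)).1 : ℝ) with hQ
  set Q' : ℝ := ((den (R (aq τ t) k)).2 : ℝ)
  set x := xi hτ t k with hx
  set y := xi hτ t' k with hy
  have hx1 := (xi_spec hτ t k).1
  have hy1 := (xi_spec hτ t' k).1
  have hxb := xi_bounds hτ t k
  have hyb := xi_bounds hτ t' k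
  rw [← hx] at hx1 hxb
  rw [← hy] at hy1 hyb
  have hax : (aq τ t k : ℝ) ≤ 2 ^ (mq τ k + 1) := by exact_mod_cast aq_le hτ t k
  have hay : (aq τ t' k : ℝ) ≤ 2 ^ (mq τ k + 1) := by exact_mod_cast aq_le hτ t' k
  -- difference of digits
  have hxy : 1 ≤ |x - y| := by
    have h1 : (aq τ t k : ℤ) - aq τ t' k = 2 * ((cq τ t k : ℤ) - cq τ t' k) := by
      unfold aq; push_cast; ring
    have h2 : (1:ℤ) ≤ |(cq τ t k : ℤ) - cq τ t' k| := by
      apply Int.one_le_abs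
      intro h
      apply hk1
      omega
    have h3 : (2:ℝ) ≤ |(aq τ t k : ℝ) - aq τ t' k| := by
      have h4 : (2:ℤ) ≤ |(aq τ t k : ℤ) - aq τ t' k| := by
        rw [h1, abs_mul]
        have : |(2:ℤ)| = 2 := rfl
        rw [this]
        linarith
      exact_mod_cast h4
    rcases le_abs.mp h3 with h | h
    · rw [le_abs]; left; linarith [hxb.1, hyb.2]
    · rw [le_abs]; right; linarith [hxb.2, hyb.1]
  have hdx : 0 < Q * x + Q' := by
    have : 0 < Q * x := mul_pos (by linarith) (by linarith)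
    linarith
  have hdy : 0 < Q * y + Q' := by
    have : 0 < Q * y := mul_pos (by linarith) (by linarith)
    linarith
  have hdiff : |th hτ t - th hτ t'| = |x - y| / ((Q * x + Q') * (Q * y + Q')) := by
    unfold th
    rw [f1, f2, div_sub_div _ _ hdx.ne' hdy.ne', abs_div, abs_of_pos (mul_pos hdx hdy)]
    congr 1
    have e1 : (P * x + P') * (Q * y + Q') - (Q * x + Q') * (P * y + P')
        = -(P' * Q - P * Q') * (x - y) := by ring
    rw [e1, hdet, abs_mul, abs_neg]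
    have h2 : |sg (R (aq τ t) k)| = 1 := by unfold sg; rw [abs_pow]; simp
    rw [h2, one_mul]
  -- bound of the denominators
  have hpow1 : (1:ℝ) ≤ 2 ^ (mq τ k + 1) := one_le_pow₀ (by norm_num)
  have hbd : ∀ z : ℝ, 1 < z → z < 2 ^ (mq τ k + 1) + 1 → Q * z + Q' ≤ 2 ^ (mq τ k + 2) * Q := by
    intro z hz1 hz2
    have h2 : (2:ℝ) ^ (mq τ k + 2) = 2 ^ (mq τ k + 1) + 2 ^ (mq τ k + 1) := by
      rw [pow_succ 2 (mq τ k + 1)]; ring
    have hm3 := mq_ge hτ k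
    have h3 : (2:ℝ) ≤ 2 ^ (mq τ k + 1) := by
      calc (2:ℝ) = 2 ^ 1 := by norm_num
        _ ≤ 2 ^ (mq τ k + 1) := pow_le_pow_right₀ (by norm_num) (by omega)
    have h4 : Q * z ≤ Q * (2 ^ (mq τ k + 1) + 1) := by gcongr
    nlinarith
  have hbx := hbd x hx1 (by linarith [hxb.2])
  have hby := hbd y hy1 (by linarith [hyb.2])
  set s0 : ℝ := (sq τ 0 : ℝ) with hs0
  set s1 : ℝ := (sq τ (k + 1) : ℝ) with hs1
  have hQle : 2 ^ (mq τ k + 2) * Q ≤ (2:ℝ) ^ (s1 - s0 + 2 * k + 2) := by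
    have h1 : (2:ℝ) ^ sq τ 0 * Q ≤ 2 ^ (sq τ k + 2 * k) := by rw [hQ]; exact_mod_cast hgr
    have h2 : (2:ℝ) ^ (s1 - s0 + 2 * k + 2) = 2 ^ (mq τ k + 2) * 2 ^ (sq τ k + 2 * k) / 2 ^ sq τ 0 := by
      rw [eq_div_iff (by positivity), ← Real.rpow_natCast, ← Real.rpow_natCast, ← Real.rpow_natCast,
        ← Real.rpow_add (by norm_num), ← Real.rpow_add (by norm_num)]
      congr 1
      rw [hs1, sq_succ hτ k, hs0]
      push_cast
      ring
    rw [h2, le_div_iff₀ (by positivity)]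
    calc 2 ^ (mq τ k + 2) * Q * 2 ^ sq τ 0 = 2 ^ (mq τ k + 2) * (2 ^ sq τ 0 * Q) := by ring
      _ ≤ 2 ^ (mq τ k + 2) * 2 ^ (sq τ k + 2 * k) := by gcongr
  have hlow : (2:ℝ) ^ (-(2 * (s1 - s0 + 2 * k + 2))) ≤ |th hτ t - th hτ t'| := by
    rw [hdiff, Real.rpow_neg (by norm_num)]
    have h1 : (Q * x + Q') * (Q * y + Q') ≤ (2:ℝ) ^ (2 * (s1 - s0 + 2 * k + 2)) := by
      have h2 : (2:ℝ) ^ (2 * (s1 - s0 + 2 * k + 2))
          = (2:ℝ) ^ (s1 - s0 + 2 * k + 2) * (2:ℝ) ^ (s1 - s0 + 2 * k + 2) := by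
        rw [← Real.rpow_add (by norm_num)]; congr 1; ring
      rw [h2]
      apply mul_le_mul (hbx.trans hQle) (hby.trans hQle) hdy.le (by positivity)
    rw [← one_div, div_le_div_iff₀ (by positivity) (mul_pos hdx hdy), one_mul]
    calc (Q * x + Q') * (Q * y + Q') ≤ (2:ℝ) ^ (2 * (s1 - s0 + 2 * k + 2)) := h1
      _ = 1 * (2:ℝ) ^ (2 * (s1 - s0 + 2 * k + 2)) := (one_mul _).symm
      _ ≤ |x - y| * (2:ℝ) ^ (2 * (s1 - s0 + 2 * k + 2)) := by gcongr
  have hpow : ((2:ℝ) ^ (-(2 * (s1 - s0 + 2 * k + 2)))) ^ (1 / (4 * τ)) ≤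
      |th hτ t - th hτ t'| ^ (1 / (4 * τ)) := by
    apply Real.rpow_le_rpow (by positivity) hlow (by positivity)
  rw [← Real.rpow_mul (by norm_num)] at hpow
  have hfin : (1 / 2 : ℝ) ^ nq τ k ≤ 2 ^ (sq τ 0 + 2) * (2:ℝ) ^ (-(2 * (s1 - s0 + 2 * k + 2)) * (1 / (4 * τ))) := by
    rw [one_div, inv_pow, ← Real.rpow_natCast, ← Real.rpow_natCast, ← Real.rpow_neg (by norm_num),
      ← Real.rpow_add (by norm_num)]
    apply Real.rpow_le_rpow_of_exponent_le (by norm_num)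
    have h1 := sq_tau hτ k
    have h2 := sq_four hτ k
    have h3 : ((nq τ k + k + sq τ 0 : ℕ) : ℝ) = sq τ k := by exact_mod_cast nq_eq hτ k
    push_cast at h3 ⊢
    rw [← hs0] at h3 ⊢
    rw [← hs1] at h1
    have h4 : -(2 * (s1 - s0 + 2 * k + 2)) * (1 / (4 * τ)) = -((s1 - s0 + 2 * k + 2) / (2 * τ)) := by
      field_simp; ring
    rw [h4]
    have hs00 : 0 ≤ s0 := Nat.cast_nonneg _
    have hk0 : (0:ℝ) ≤ k := Nat.cast_nonneg _
    have h5 : (s1 - s0 + 2 * k + 2) / (2 * τ) ≤ sq τ k / 2 + (2 * k + 3) / 2 := by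
      rw [div_le_iff₀ (by positivity)]
      have : (sq τ k / 2 + (2 * (k:ℝ) + 3) / 2) * (2 * τ) = τ * sq τ k + (2 * k + 3) * τ := by ring
      rw [this]
      nlinarith
    linarith
  calc |t - t'| ≤ (1 / 2 : ℝ) ^ nq τ k := hclose
    _ ≤ 2 ^ (sq τ 0 + 2) * (2:ℝ) ^ (-(2 * (s1 - s0 + 2 * k + 2)) * (1 / (4 * τ))) := hfin
    _ ≤ _ := by gcongr

end Pool.Agent.X86.GS
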