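import Pool.Agent.X86.GS.Gauss

set_option autoImplicit false

open Filter Topology Asymptotics

namespace Pool.Agent.X86.GS

/-- growth exponent -/
noncomputable def sigma (f : ℕ → ℂ) : ℝ :=
  sInf {s : ℝ | 0 < s ∧ f =O[atTop] fun N : ℕ => (N:ℝ) ^ s}

lemma sqrt_eq_exp {x : ℝ} (hx : 0 < x) : √x = Real.exp (Real.log x / 2) := by
  rw [← Real.exp_log (Real.sqrt_pos.mpr hx), Real.log_sqrt hx.le]

lemma Er_le {q : ℕ} (hq : 1 ≤ q) {ε : ℝ} (h : 3 + 2 * Real.log q ≤ Real.exp (2 * ε * Real.log q)) :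
    Er q ≤ Real.exp ((1 / 2 + ε) * Real.log q) := by
  have hqR : (0:ℝ) < q := by exact_mod_cast hq
  unfold Er
  rw [Real.sqrt_le_left (Real.exp_pos _).le, ← Real.exp_nat_mul]
  calc (q:ℝ) * (3 + 2 * Real.log q) ≤ q * Real.exp (2 * ε * Real.log q) := by gcongr
    _ = Real.exp (Real.log q) * Real.exp (2 * ε * Real.log q) := by rw [Real.exp_log hqR]
    _ = _ := by rw [← Real.exp_add]; congr 1; push_cast; ring

lemma log_small {l : ℕ → ℝ} (hl : Tendsto l atTop atTop) {ε : ℝ} (hε : 0 < ε) :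
    ∀ᶠ k in atTop, 3 + 2 * l k ≤ Real.exp (ε * l k) := by
  have h1 : Tendsto (fun k => ε * l k) atTop atTop := hl.const_mul_atTop hε
  have h2 : Tendsto (fun x : ℝ => Real.exp x / x ^ 1) atTop atTop := Real.tendsto_exp_div_pow_atTop 1
  have h3 := (h2.comp h1).eventually (eventually_ge_atTop (3 / ε * 1 + 2 / ε))
  have h4 := hl.eventually (eventually_ge_atTop 1)
  filter_upwards [h3, h4] with k hk hk1
  simp only [Function.comp, pow_one] at hk
  have h5 : 0 < ε * l k := by positivity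
  rw [le_div_iff₀ h5] at hk
  have h6 : (3 / ε * 1 + 2 / ε) * (ε * l k) = 5 * l k := by field_simp; ring
  rw [h6] at hk
  linarith

theorem expo_upper {θ τ s : ℝ} (p q : ℕ → ℕ) (hmono : Monotone q) (hq1 : ∀ k, 1 ≤ q k)
    (hodd : ∀ k, Odd (q k)) (hcop : ∀ k, Nat.Coprime (p k) (q k))
    (happ : ∀ k, |θ - (p k : ℝ) / q k| ≤ 1 / ((q k : ℝ) * q (k + 1)))
    (hinf : Tendsto (fun k => Real.log (q k)) atTop atTop) (hτ : 1 < τ)
    (hrat : Tendsto (fun k => Real.log (q (k + 1)) / Real.log (q k)) atTop (𝓝 τ))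
    (hs : τ / (1 + τ) < s) (hs1 : s < 1) :
    (fun N => S θ N) =O[atTop] fun N : ℕ => (N:ℝ) ^ s := by
  have hs0 : 0 < s := lt_trans (by positivity) hs
  -- choice of ε
  have c1 : ∀ᶠ ε : ℝ in 𝓝[>] 0, (1 - s) * (1 + τ + ε) < 1 := by
    have hcont : Tendsto (fun ε : ℝ => (1 - s) * (1 + τ + ε)) (𝓝[>] 0) (𝓝 ((1 - s) * (1 + τ + 0))) := by
      apply Tendsto.mono_left _ nhdsWithin_le_nhds
      exact Continuous.tendsto (by fun_prop) 0
    apply hcont.eventually_lt_const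
    rw [div_lt_iff₀ (by linarith)] at hs
    nlinarith
  have c2 : ∀ᶠ ε : ℝ in 𝓝[>] 0, 1 + 2 * ε < s * (1 + 1 / (τ + ε)) := by
    have hcont : Tendsto (fun ε : ℝ => s * (1 + 1 / (τ + ε)) - (1 + 2 * ε)) (𝓝[>] 0)
        (𝓝 (s * (1 + 1 / (τ + 0)) - (1 + 2 * 0))) := by
      apply Tendsto.mono_left _ nhdsWithin_le_nhds
      apply ContinuousAt.tendsto (x := (0:ℝ)) (f := fun ε : ℝ => s * (1 + 1 / (τ + ε)) - (1 + 2 * ε))
      have : τ + 0 ≠ 0 := by linarith
      fun_prop (disch := assumption)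
    have hpos : 0 < s * (1 + 1 / (τ + 0)) - (1 + 2 * 0) := by
      rw [div_lt_iff₀ (by linarith)] at hs
      have h0 : 0 < τ := by linarith
      have : s * (1 + 1 / (τ + 0)) - (1 + 2 * 0) = (s * (1 + τ) - τ) / τ := by
        rw [add_zero]; field_simp; ring
      rw [this]
      exact div_pos (by linarith) h0
    filter_upwards [hcont.eventually_const_lt hpos] with ε hε
    linarith
  obtain ⟨ε, ⟨hε1, hε2⟩, hε0⟩ := ((c1.and c2).and self_mem_nhdsWithin).exists
  have hε : 0 < ε := hε0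
  -- eventual properties
  have hlpos := hinf.eventually (eventually_gt_atTop 0)
  have hA1 : ∀ᶠ k in atTop, Real.log (q (k + 1)) ≤ (τ + ε) * Real.log (q k) := by
    filter_upwards [hrat.eventually_lt_const (show τ < τ + ε by linarith), hlpos] with k hk hk0
    rw [div_lt_iff₀ hk0] at hk
    exact hk.le
  have hA2 := log_small hinf (show 0 < 2 * ε by linarith)
  obtain ⟨k0, hk0⟩ := (hlpos.and (hA1.and hA2)).exists_forall_of_atTop
  have hqq : Monotone (fun k => q k * q (k + 1)) := fun a b hab =>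
    Nat.mul_le_mul (hmono hab) (hmono (by omega))
  have hqinf : Tendsto q atTop atTop := by
    rw [tendsto_atTop_atTop]
    intro B
    obtain ⟨k1, hk1⟩ := (hinf.eventually (eventually_ge_atTop (Real.log B))).exists_forall_of_atTop
    refine ⟨k1, fun k hk => ?_⟩
    rcases Nat.eq_zero_or_pos B with h0 | h0
    · omega
    · have h2 := hk1 k hk
      have h3 : (B:ℝ) ≤ q k := by
        rwa [Real.log_le_log_iff (by exact_mod_cast h0)
          (by exact_mod_cast (hq1 k))] at h2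
      exact_mod_cast h3
  apply IsBigO.of_bound 18
  filter_upwards [eventually_ge_atTop (q k0 * q (k0 + 1))] with N hN
  have hN1 : 1 ≤ N := le_trans (Nat.mul_le_mul (hq1 k0) (hq1 (k0 + 1))) hN
  have hNR : (1:ℝ) ≤ N := by exact_mod_cast hN1
  have hNpos : (0:ℝ) < N := by linarith
  have hex : ∃ m, N ^ 2 < q m * q (m + 1) := by
    obtain ⟨m, hm⟩ := (hqinf.eventually (eventually_gt_atTop (N ^ 2))).exists
    exact ⟨m, lt_of_lt_of_le hm (Nat.le_mul_of_pos_right _ (hq1 (m + 1)))⟩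
  classical
  set m := Nat.find hex with hm
  have hm1 : N ^ 2 < q m * q (m + 1) := Nat.find_spec hex
  have hmk : k0 < m := by
    by_contra hcon
    push Not at hcon
    have h1 : q m * q (m + 1) ≤ q k0 * q (k0 + 1) := hqq hcon
    nlinarith
  obtain ⟨j, hj⟩ : ∃ j, m = j + 1 := ⟨m - 1, by omega⟩
  have hm2 : q j * q (j + 1) ≤ N ^ 2 := by
    have := Nat.find_min hex (m := j) (by omega)
    omega
  rw [hj] at hm1
  have hqj0 : (1:ℝ) ≤ q j := by exact_mod_cast hq1 j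
  have hqj1 : (1:ℝ) ≤ q (j + 1) := by exact_mod_cast hq1 (j + 1)
  have hqj2 : (1:ℝ) ≤ q (j + 1 + 1) := by exact_mod_cast hq1 (j + 1 + 1)
  set n := Real.log N with hn
  set lj := Real.log (q j) with hlj
  set lk := Real.log (q (j + 1)) with hlk
  set lk1 := Real.log (q (j + 1 + 1)) with hlk1
  obtain ⟨hj0, hj1, hj2⟩ := hk0 j (by omega)
  obtain ⟨hk0', hk1', hk2'⟩ := hk0 (j + 1) (by omega)
  have hN2 : 2 * n < lk + lk1 := by
    have h1 : (N:ℝ) ^ 2 < (q (j + 1) : ℝ) * q (j + 1 + 1) := by exact_mod_cast hm1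
    have h2 := Real.log_lt_log (by positivity) h1
    rw [Real.log_mul (by positivity) (by positivity), Real.log_pow] at h2
    exact_mod_cast h2
  have hN3 : lj + lk ≤ 2 * n := by
    have h1 : (q j : ℝ) * q (j + 1) ≤ (N:ℝ) ^ 2 := by exact_mod_cast hm2
    have h2 := Real.log_le_log (by positivity) h1
    rw [Real.log_mul (by positivity) (by positivity), Real.log_pow] at h2
    exact_mod_cast h2
  have hNs : (N:ℝ) ^ s = Real.exp (s * n) := by
    rw [Real.rpow_def_of_pos hNpos, mul_comm]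
  have hn0 : 0 ≤ n := Real.log_nonneg hNR
  have hNs1 : 1 ≤ (N:ℝ) ^ s := Real.one_le_rpow hNR hs0.le
  have hup := upper (p (j + 1)) (q (j + 1)) N (hodd _) (hcop _) θ (by
    calc |θ - (p (j + 1) : ℝ) / q (j + 1)| * (N:ℝ) ^ 2
        ≤ 1 / ((q (j + 1) : ℝ) * q (j + 1 + 1)) * (N:ℝ) ^ 2 := by gcongr; exact happ (j + 1)
      _ ≤ 1 := by
        rw [div_mul_eq_mul_div, one_mul, div_le_one (by positivity)]
        exact_mod_cast hm1.le)
  have hc1 : (N:ℝ) / √(q (j + 1)) ≤ (N:ℝ) ^ s := by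
    rw [sqrt_eq_exp (by linarith), ← hlk, hNs]
    have : (N:ℝ) = Real.exp n := (Real.exp_log hNpos).symm
    rw [this, ← Real.exp_sub, Real.exp_le_exp]
    have h1 : (1 - s) * (2 * n) ≤ (1 - s) * ((1 + τ + ε) * lk) := by
      apply mul_le_mul_of_nonneg_left _ (by linarith)
      have : (1 + τ + ε) * lk = lk + (τ + ε) * lk := by ring
      linarith
    have h2 : (1 - s) * ((1 + τ + ε) * lk) ≤ lk := by
      have : (1 - s) * ((1 + τ + ε) * lk) = ((1 - s) * (1 + τ + ε)) * lk := by ring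
      rw [this]
      nlinarith
    linarith
  have hc2 : Er (q (j + 1)) ≤ (N:ℝ) ^ s := by
    refine (Er_le (hq1 (j + 1)) (ε := ε) hk2').trans ?_
    rw [hNs, Real.exp_le_exp, ← hlk]
    have h0 : 0 < τ + ε := by linarith
    have h1 : lk / (τ + ε) ≤ lj := by
      rw [div_le_iff₀ h0]; linarith
    have h2 : (1 + 1 / (τ + ε)) * lk ≤ 2 * n := by
      have : (1 + 1 / (τ + ε)) * lk = lk + lk / (τ + ε) := by ring
      linarith
    have h3 : s * ((1 + 1 / (τ + ε)) * lk) ≤ s * (2 * n) := mul_le_mul_of_nonneg_left h2 hs0.le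
    have h4 : (1 + 2 * ε) * lk ≤ s * (1 + 1 / (τ + ε)) * lk :=
      mul_le_mul_of_nonneg_right hε2.le hk0'.le
    linarith
  have hfin : ‖S θ N‖ ≤ 18 * (N:ℝ) ^ s := by linarith
  rw [Real.norm_of_nonneg (by positivity)]
  exact hfin

theorem expo_lower {θ τ s : ℝ} (p q : ℕ → ℕ) (hq1 : ∀ k, 1 ≤ q k)
    (hodd : ∀ k, Odd (q k)) (hcop : ∀ k, Nat.Coprime (p k) (q k))
    (happ : ∀ k, |θ - (p k : ℝ) / q k| ≤ 1 / ((q k : ℝ) * q (k + 1)))
    (hinf : Tendsto (fun k => Real.log (q k)) atTop atTop) (hτ : 1 < τ)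
    (hrat : Tendsto (fun k => Real.log (q (k + 1)) / Real.log (q k)) atTop (𝓝 τ))
    (hs0 : 0 < s) (hO : (fun N => S θ N) =O[atTop] fun N : ℕ => (N:ℝ) ^ s) : τ / (1 + τ) ≤ s := by
  by_contra hcon
  push Not at hcon
  have hs1 : s < 1 := lt_trans hcon (by rw [div_lt_one (by linarith)]; linarith)
  have c1 : ∀ᶠ ε : ℝ in 𝓝[>] 0, 1 + ε < (1 - s) * (1 + τ - ε) := by
    have hcont : Tendsto (fun ε : ℝ => (1 - s) * (1 + τ - ε) - (1 + ε)) (𝓝[>] 0)
        (𝓝 ((1 - s) * (1 + τ - 0) - (1 + 0))) := by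
      apply Tendsto.mono_left _ nhdsWithin_le_nhds
      exact Continuous.tendsto (by fun_prop) 0
    have hpos : 0 < (1 - s) * (1 + τ - 0) - (1 + 0) := by
      rw [lt_div_iff₀ (by linarith)] at hcon
      nlinarith
    filter_upwards [hcont.eventually_const_lt hpos] with ε hε
    linarith
  have c2 : ∀ᶠ ε : ℝ in 𝓝[>] 0, ε < (τ - 1) / 2 := by
    apply eventually_nhdsWithin_of_eventually_nhds
    exact eventually_lt_nhds (by linarith)
  obtain ⟨ε, ⟨hε1, hε2⟩, hε0⟩ := ((c1.and c2).and self_mem_nhdsWithin).exists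
  have hε : 0 < ε := hε0
  obtain ⟨C, hC⟩ := hO.bound
  obtain ⟨N0, hN0⟩ := hC.exists_forall_of_atTop
  have hlpos := hinf.eventually (eventually_gt_atTop 0)
  have hA1 : ∀ᶠ k in atTop, (τ - ε) * Real.log (q k) ≤ Real.log (q (k + 1)) := by
    filter_upwards [hrat.eventually_const_lt (show τ - ε < τ by linarith), hlpos] with k hk hk0
    rw [lt_div_iff₀ hk0] at hk
    exact hk.le
  have hA2 := log_small hinf (show 0 < (τ - 1) / 8 by linarith)
  have hA3 := hinf.eventually (eventually_ge_atTop (8 / (τ - 1) * Real.log 12))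
  have hA4 := hinf.eventually (eventually_ge_atTop (2 / ε * Real.log (24 * (|C| + 3))))
  have hA5 := hinf.eventually (eventually_ge_atTop (Real.log (N0 + 1)))
  obtain ⟨k, hk0, hk1, hk2, hk3, hk4, hk5⟩ :=
    (hlpos.and (hA1.and (hA2.and (hA3.and (hA4.and hA5))))).exists
  have hqk : (1:ℝ) ≤ q k := by exact_mod_cast hq1 k
  have hqk1 : (1:ℝ) ≤ q (k + 1) := by exact_mod_cast hq1 (k + 1)
  have hqk0 : (0:ℝ) < q k := by linarith
  have hqk10 : (0:ℝ) < q (k + 1) := by linarith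
  set l := Real.log (q k) with hl
  set l' := Real.log (q (k + 1)) with hl'
  set Q := √((q (k + 1) : ℝ) / q k) with hQ
  have hQe : Q = Real.exp ((l' - l) / 2) := by
    rw [hQ, sqrt_eq_exp (by positivity), Real.log_div (by positivity) (by positivity)]
  have hll : (τ - 1) / 2 * l ≤ l' - l := by nlinarith
  have hlog12 : 0 < Real.log 12 := Real.log_pos (by norm_num)
  have hτ1 : 0 < τ - 1 := by linarith
  have hl3 : Real.log 12 ≤ (τ - 1) / 8 * l := by
    have h1 := mul_le_mul_of_nonneg_left hk3 (show 0 ≤ (τ - 1) / 8 by linarith)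
    have h2 : (τ - 1) / 8 * (8 / (τ - 1) * Real.log 12) = Real.log 12 := by
      field_simp
    linarith
  have hQ12 : 12 ≤ Q := by
    rw [hQe, ← Real.exp_log (show (0:ℝ) < 12 by norm_num), Real.exp_le_exp]
    nlinarith
  have hQpos : 0 < Q := by linarith
  set m := ⌊Q / 6⌋₊ with hm
  have hm1 : (m:ℝ) ≤ Q / 6 := Nat.floor_le (by positivity)
  have hm2 : Q / 6 - 1 < m := Nat.sub_one_lt_floor _
  have hm3 : Q / 12 ≤ m := by linarith
  have hmpos : (0:ℝ) < m := by linarith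
  have hQsq : Q ^ 2 = (q (k + 1) : ℝ) / q k := Real.sq_sqrt (by positivity)
  have hsq : √(q k : ℝ) = Real.exp (l / 2) := sqrt_eq_exp hqk0
  have hlow := lower (p k) (q k) m (hodd k) (hcop k) θ (by
    have h1 : ((m * q k : ℕ) : ℝ) ^ 2 ≤ (q k : ℝ) * q (k + 1) / 36 := by
      have h2 : (m:ℝ) ^ 2 ≤ Q ^ 2 / 36 := by
        have : (m:ℝ) ^ 2 ≤ (Q / 6) ^ 2 := pow_le_pow_left₀ hmpos.le hm1 2
        linarith [this, (by ring : (Q / 6) ^ 2 = Q ^ 2 / 36)]
      push_cast
      rw [mul_pow]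
      calc (m:ℝ) ^ 2 * (q k:ℝ) ^ 2 ≤ (Q ^ 2 / 36) * (q k:ℝ) ^ 2 := by gcongr
        _ = (q k : ℝ) * q (k + 1) / 36 := by rw [hQsq]; field_simp
    calc |θ - (p k : ℝ) / q k| * ((m * q k : ℕ) : ℝ) ^ 2
        ≤ 1 / ((q k : ℝ) * q (k + 1)) * ((q k : ℝ) * q (k + 1) / 36) := by
          apply mul_le_mul (happ k) h1 (by positivity) (by positivity)
      _ = 1 / 36 := by field_simp) (by
    have h1 : Er (q k) ≤ Real.exp ((1 / 2 + (τ - 1) / 16) * l) :=
      Er_le (hq1 k) (by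
        have : 2 * ((τ - 1) / 16) * Real.log (q k) = (τ - 1) / 8 * l := by rw [hl]; ring
        rw [this]; exact hk2)
    refine h1.trans ?_
    rw [hsq]
    have h2 : Real.exp ((1 / 2 + (τ - 1) / 16) * l) ≤ Q / 12 * Real.exp (l / 2) := by
      have h3 : Q / 12 = Real.exp ((l' - l) / 2 - Real.log 12) := by
        rw [Real.exp_sub, Real.exp_log (by norm_num), hQe]
      rw [h3, ← Real.exp_add, Real.exp_le_exp]
      nlinarith
    exact h2.trans (mul_le_mul_of_nonneg_right hm3 (Real.exp_pos _).le))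
  -- N = m q_k
  set N := m * q k with hN
  have hNR : (N:ℝ) = m * q k := by rw [hN]; push_cast; rfl
  have hm1' : 1 ≤ m := by exact_mod_cast (by linarith : (1:ℝ) ≤ m)
  have hNge : N0 ≤ N := by
    have h1 : (N0:ℝ) + 1 ≤ q k := by
      rw [Real.log_le_log_iff (by positivity) hqk0] at hk5
      exact hk5
    have h2 : N0 + 1 ≤ q k := by exact_mod_cast h1
    calc N0 ≤ q k := by omega
      _ ≤ m * q k := Nat.le_mul_of_pos_left _ hm1'
  have hb := hN0 N hNge
  have hNpos : (0:ℝ) < N := by rw [hNR]; positivity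
  have hN1 : (1:ℝ) ≤ N := by
    rw [hNR]
    have : (1:ℝ) ≤ m := by exact_mod_cast hm1'
    nlinarith
  set n := Real.log N with hn
  have hn1 : (l + l') / 2 - Real.log 12 ≤ n := by
    have h1 : Q / 12 * q k ≤ N := by rw [hNR]; gcongr
    have h2 : Q / 12 * q k = Real.exp ((l + l') / 2 - Real.log 12) := by
      have h3 : Real.exp l = (q k : ℝ) := Real.exp_log hqk0
      have h4 : Real.exp ((l + l') / 2 - Real.log 12) = Real.exp ((l' - l) / 2) / 12 * Real.exp l := by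
        rw [Real.exp_sub, Real.exp_log (by norm_num), div_mul_eq_mul_div, ← Real.exp_add]
        congr 2
        ring
      rw [h4, h3, hQe]
    rw [h2] at h1
    exact (Real.le_log_iff_exp_le hNpos).mpr h1
  have hNs : (N:ℝ) ^ s = Real.exp (s * n) := by
    rw [Real.rpow_def_of_pos hNpos, mul_comm]
  have hNs1 : 1 ≤ (N:ℝ) ^ s := Real.one_le_rpow hN1 hs0.le
  have hms : (m:ℝ) * √(q k : ℝ) = Real.exp (n - l / 2) := by
    rw [Real.exp_sub, ← hsq, hn, Real.exp_log hNpos, hNR]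
    have := Real.mul_self_sqrt hqk0.le
    have hs' : 0 < √(q k : ℝ) := Real.sqrt_pos.mpr hqk0
    rw [eq_div_iff hs'.ne', mul_assoc, this]
  have hbig : 24 * (|C| + 3) / 12 * (N:ℝ) ^ s ≤ m * √(q k : ℝ) := by
    rw [hms, hNs]
    have hC3 : (0:ℝ) < 24 * (|C| + 3) := by positivity
    have h1 : 24 * (|C| + 3) / 12 = Real.exp (Real.log (24 * (|C| + 3)) - Real.log 12) := by
      rw [Real.exp_sub, Real.exp_log hC3, Real.exp_log (by norm_num)]
    rw [h1, ← Real.exp_add, Real.exp_le_exp]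
    have h2 : Real.log (24 * (|C| + 3)) ≤ ε / 2 * l := by
      have h3 := mul_le_mul_of_nonneg_left hk4 (show 0 ≤ ε / 2 by linarith)
      have h4 : ε / 2 * (2 / ε * Real.log (24 * (|C| + 3))) = Real.log (24 * (|C| + 3)) := by
        field_simp
      linarith
    have h5 : (1 - s) * ((l + l') / 2 - Real.log 12) ≤ (1 - s) * n :=
      mul_le_mul_of_nonneg_left hn1 (by linarith)
    have h6 : (1 + ε) * l ≤ (1 - s) * (1 + τ - ε) * l := mul_le_mul_of_nonneg_right hε1.le hk0.le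
    have h7 : (1 - s) * ((1 + τ - ε) * l) ≤ (1 - s) * (l + l') := by
      apply mul_le_mul_of_nonneg_left _ (by linarith)
      have : (1 + τ - ε) * l = l + (τ - ε) * l := by ring
      linarith
    have h8 : (1 - s) * Real.log 12 ≤ Real.log 12 := by nlinarith
    nlinarith
  have hCle : C * ‖(N:ℝ) ^ s‖ ≤ |C| * (N:ℝ) ^ s := by
    rw [Real.norm_of_nonneg (by positivity)]
    exact mul_le_mul_of_nonneg_right (le_abs_self C) (by positivity)
  have hfin : (|C| + 3) * (N:ℝ) ^ s - 2 ≤ |C| * (N:ℝ) ^ s := by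
    have h1 : (|C| + 3) * (N:ℝ) ^ s ≤ m * √(q k : ℝ) / 2 := by linarith
    linarith
  nlinarith

theorem expo {θ τ : ℝ} (p q : ℕ → ℕ) (hmono : Monotone q) (hq1 : ∀ k, 1 ≤ q k)
    (hodd : ∀ k, Odd (q k)) (hcop : ∀ k, Nat.Coprime (p k) (q k))
    (happ : ∀ k, |θ - (p k : ℝ) / q k| ≤ 1 / ((q k : ℝ) * q (k + 1)))
    (hinf : Tendsto (fun k => Real.log (q k)) atTop atTop) (hτ : 1 < τ)
    (hrat : Tendsto (fun k => Real.log (q (k + 1)) / Real.log (q k)) atTop (𝓝 τ)) :
    sigma (fun N => S θ N) = τ / (1 + τ) := by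
  have hα0 : 0 < τ / (1 + τ) := by positivity
  have hα1 : τ / (1 + τ) < 1 := by rw [div_lt_one (by linarith)]; linarith
  have hmem : ∀ s, τ / (1 + τ) < s → s < 1 →
      s ∈ {s : ℝ | 0 < s ∧ (fun N => S θ N) =O[atTop] fun N : ℕ => (N:ℝ) ^ s} :=
    fun s h1 h2 => ⟨lt_trans hα0 h1, expo_upper p q hmono hq1 hodd hcop happ hinf hτ hrat h1 h2⟩
  unfold sigma
  apply csInf_eq_of_forall_ge_of_forall_gt_exists_lt
  · exact ⟨(τ / (1 + τ) + 1) / 2, hmem _ (by linarith) (by linarith)⟩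
  · rintro s ⟨h0, hO⟩
    exact expo_lower p q hq1 hodd hcop happ hinf hτ hrat h0 hO
  · intro w hw
    refine ⟨(τ / (1 + τ) + min w 1) / 2, hmem _ ?_ ?_, ?_⟩
    · have : τ / (1 + τ) < min w 1 := lt_min hw hα1
      linarith
    · have : min w 1 ≤ 1 := min_le_right _ _
      linarith
    · have : min w 1 ≤ w := min_le_left _ _
      linarith

end Pool.Agent.X86.GS
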