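import Mathlib

set_option autoImplicit false

open Finset

namespace Pool.Agent.X86.GS

/-- `e x = exp (2 π i x)` -/
noncomputable def e (x : ℝ) : ℂ := Complex.exp ((2 * Real.pi * x : ℝ) * Complex.I)

lemma e_zero : e 0 = 1 := by simp [e]

lemma e_add (x y : ℝ) : e (x + y) = e x * e y := by
  unfold e
  rw [← Complex.exp_add]
  congr 1
  push_cast
  ring

lemma norm_e (x : ℝ) : ‖e x‖ = 1 := by
  unfold e
  exact Complex.norm_exp_ofReal_mul_I _

lemma e_ne_zero (x : ℝ) : e x ≠ 0 := by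
  unfold e; exact Complex.exp_ne_zero _

lemma e_int (n : ℤ) : e n = 1 := by
  unfold e
  rw [Complex.exp_eq_one_iff]
  exact ⟨n, by push_cast; ring⟩

lemma e_add_int (x : ℝ) (n : ℤ) : e (x + n) = e x := by
  rw [e_add, e_int, mul_one]

lemma e_neg (x : ℝ) : e (-x) = (starRingEnd ℂ) (e x) := by
  unfold e
  rw [← Complex.exp_conj]
  congr 1
  rw [map_mul, Complex.conj_ofReal, Complex.conj_I]
  push_cast
  ring

lemma e_nat_mul (x : ℝ) (n : ℕ) : e (n * x) = e x ^ n := by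
  induction n with
  | zero => simp [e_zero]
  | succ n ih =>
    rw [pow_succ, ← ih, ← e_add]
    congr 1
    push_cast
    ring

lemma norm_e_sub_one (x : ℝ) : ‖e x - 1‖ = 2 * |Real.sin (Real.pi * x)| := by
  unfold e
  rw [mul_comm, Complex.norm_exp_I_mul_ofReal_sub_one]
  rw [Real.norm_eq_abs, abs_mul, abs_two]
  congr 3
  ring

lemma norm_e_sub (x y : ℝ) : ‖e x - e y‖ ≤ 2 * Real.pi * |x - y| := by
  have h : e x - e y = e y * (e (x - y) - 1) := by
    rw [mul_sub, ← e_add, mul_one]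
    congr 2
    ring
  rw [h, norm_mul, norm_e, one_mul, norm_e_sub_one]
  have h2 : |Real.sin (Real.pi * (x - y))| ≤ |Real.pi * (x - y)| := Real.abs_sin_le_abs
  rw [abs_mul, abs_of_pos Real.pi_pos] at h2
  linarith

/-- lower bound for `|e(u) - 1|` -/
lemma e_sub_one_lower {u : ℝ} (h0 : 0 < u) (h1 : u < 1) :
    1 / ‖e u - 1‖ ≤ (1 / u + 1 / (1 - u)) / 4 := by
  have key : ∀ v : ℝ, 0 < v → v ≤ 1 / 2 → 2 * v ≤ Real.sin (Real.pi * v) := by
    intro v hv0 hv1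
    have h := Real.mul_le_sin (x := Real.pi * v) (by positivity) (by nlinarith [Real.pi_pos])
    have h2 : 2 / Real.pi * (Real.pi * v) = 2 * v := by
      have := Real.pi_pos.ne'
      field_simp
    linarith
  have h1u : 0 < 1 - u := by linarith
  rw [norm_e_sub_one]
  rcases le_total u (1 / 2) with h | h
  · have h2 := key u h0 h
    have h3 : |Real.sin (Real.pi * u)| ≥ 2 * u := h2.trans (le_abs_self _)
    calc 1 / (2 * |Real.sin (Real.pi * u)|) ≤ 1 / (4 * u) := by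
          apply one_div_le_one_div_of_le (by positivity); linarith
      _ = (1 / u) / 4 := by field_simp
      _ ≤ (1 / u + 1 / (1 - u)) / 4 := by
          have : 0 < 1 / (1 - u) := by positivity
          linarith
  · have h2 := key (1 - u) h1u (by linarith)
    have h3 : Real.sin (Real.pi * (1 - u)) = Real.sin (Real.pi * u) := by
      have : Real.pi * (1 - u) = Real.pi - Real.pi * u := by ring
      rw [this, Real.sin_pi_sub]
    rw [h3] at h2
    have h4 : |Real.sin (Real.pi * u)| ≥ 2 * (1 - u) := h2.trans (le_abs_self _)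
    calc 1 / (2 * |Real.sin (Real.pi * u)|) ≤ 1 / (4 * (1 - u)) := by
          apply one_div_le_one_div_of_le (by positivity); linarith
      _ = (1 / (1 - u)) / 4 := by field_simp
      _ ≤ (1 / u + 1 / (1 - u)) / 4 := by
          have : 0 < 1 / u := by positivity
          linarith

/-- quadratic sum over `0 ≤ n < N` -/
noncomputable def Sr (θ : ℝ) (N : ℕ) : ℂ := ∑ n ∈ range N, e (θ * (n:ℝ) ^ 2)

lemma Sr_succ (θ : ℝ) (N : ℕ) : Sr θ (N + 1) = Sr θ N + e (θ * (N:ℝ) ^ 2) := by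
  unfold Sr; rw [sum_range_succ]

/-- geometric sums -/
lemma geom_bound (φ : ℝ) (a b : ℕ) (hφ : e φ ≠ 1) :
    ‖∑ m ∈ Ico a b, e (φ * m)‖ ≤ 2 / ‖e φ - 1‖ := by
  have h1 : ∀ m : ℕ, e (φ * m) = e φ ^ m := fun m => by rw [mul_comm, e_nat_mul]
  simp_rw [h1]
  rcases le_total a b with hab | hab
  · rw [geom_sum_Ico hφ hab, norm_div]
    have h2 : ‖e φ ^ b - e φ ^ a‖ ≤ 2 := by
      calc ‖e φ ^ b - e φ ^ a‖ ≤ ‖e φ ^ b‖ + ‖e φ ^ a‖ := norm_sub_le _ _
        _ = 2 := by rw [norm_pow, norm_pow, norm_e]; norm_num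
    gcongr
  · rw [Ico_eq_empty_of_le hab, sum_empty, norm_zero]
    positivity

/-- Weyl differencing identity -/
lemma weyl_identity (θ : ℝ) (N : ℕ) :
    ‖Sr θ N‖ ^ 2 = N + 2 * (∑ h ∈ Ico 1 N, e (θ * (h:ℝ) ^ 2) *
      ∑ m ∈ Ico h N, e (-(2 * θ * h) * m)).re := by
  induction N with
  | zero => simp [Sr]
  | succ N ih =>
    have hstep : ‖Sr θ (N + 1)‖ ^ 2 = ‖Sr θ N‖ ^ 2 + 1
        + 2 * (Sr θ N * (starRingEnd ℂ) (e (θ * (N:ℝ) ^ 2))).re := by
      rw [Sr_succ, ← Complex.normSq_eq_norm_sq, Complex.normSq_add, Complex.normSq_eq_norm_sq,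
        Complex.normSq_eq_norm_sq, norm_e, one_pow]
    have hconj : Sr θ N * (starRingEnd ℂ) (e (θ * (N:ℝ) ^ 2))
        = ∑ h ∈ Ico 1 (N + 1), e (θ * (h:ℝ) ^ 2) * e (-(2 * θ * h) * N) := by
      unfold Sr
      rw [← e_neg, sum_mul, range_eq_Ico]
      have hrefl := Finset.sum_Ico_reflect (fun n : ℕ => e (θ * (n:ℝ) ^ 2) * e (-(θ * (N:ℝ) ^ 2))) 1
        (m := N + 1) (n := N) (by omega)
      have e1 : N + 1 - (N + 1) = 0 := by omega
      have e2 : N + 1 - 1 = N := by omega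
      rw [e1, e2] at hrefl
      rw [← hrefl]
      apply sum_congr rfl
      intro h hh
      rw [mem_Ico] at hh
      rw [← e_add, ← e_add]
      congr 1
      rw [Nat.cast_sub (by omega)]
      ring
    have hsum : ∑ h ∈ Ico 1 (N + 1), e (θ * (h:ℝ) ^ 2) *
        ∑ m ∈ Ico h (N + 1), e (-(2 * θ * h) * m)
        = (∑ h ∈ Ico 1 N, e (θ * (h:ℝ) ^ 2) * ∑ m ∈ Ico h N, e (-(2 * θ * h) * m))
        + ∑ h ∈ Ico 1 (N + 1), e (θ * (h:ℝ) ^ 2) * e (-(2 * θ * h) * N) := by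
      have h1 : ∀ h ∈ Ico 1 (N + 1), e (θ * (h:ℝ) ^ 2) * ∑ m ∈ Ico h (N + 1), e (-(2 * θ * h) * m)
          = e (θ * (h:ℝ) ^ 2) * ∑ m ∈ Ico h N, e (-(2 * θ * h) * m)
            + e (θ * (h:ℝ) ^ 2) * e (-(2 * θ * h) * N) := by
        intro h hh
        rw [mem_Ico] at hh
        rw [sum_Ico_succ_top (by omega), mul_add]
      rw [sum_congr rfl h1, sum_add_distrib]
      congr 1
      rcases Nat.eq_zero_or_pos N with h0 | h0
      · subst h0; simp
      · rw [sum_Ico_succ_top (by omega)]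
        simp
    rw [hstep, hconj, ih, hsum, Complex.add_re]
    push_cast
    ring

lemma weyl_ineq (θ : ℝ) (N : ℕ) :
    ‖Sr θ N‖ ^ 2 ≤ N + 2 * ∑ h ∈ Ico 1 N, ‖∑ m ∈ Ico h N, e (-(2 * θ * h) * m)‖ := by
  rw [weyl_identity]
  gcongr
  refine (Complex.re_le_norm _).trans ((norm_sum_le _ _).trans ?_)
  apply sum_le_sum
  intro h _
  rw [norm_mul, norm_e, one_mul]

lemma e_frac_mod (q j : ℕ) (hq : 0 < q) : e ((j:ℝ) / q) = e (((j % q : ℕ) : ℝ) / q) := by
  have hq' : (q:ℝ) ≠ 0 := by positivity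
  have h1 : (j:ℝ) / q = ((j % q : ℕ) : ℝ) / q + (((j / q : ℕ) : ℤ) : ℝ) := by
    have h2 : (q:ℝ) * ((j / q : ℕ) : ℝ) + ((j % q : ℕ) : ℝ) = j := by
      exact_mod_cast Nat.div_add_mod j q
    rw [Int.cast_natCast]
    field_simp
    linarith
  rw [h1, e_add_int]

lemma harm_bound (q : ℕ) : ∑ s ∈ Ico 1 q, (1:ℝ) / s ≤ 1 + Real.log q := by
  have h1 : ∑ s ∈ Ico 1 q, (1:ℝ) / s ≤ (harmonic q : ℝ) := by
    rw [harmonic_eq_sum_Icc]
    push_cast
    have : Ico 1 q ⊆ Icc 1 q := by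
      intro x hx; rw [mem_Ico] at hx; rw [mem_Icc]; omega
    calc ∑ s ∈ Ico 1 q, (1:ℝ) / s = ∑ s ∈ Ico 1 q, ((s:ℝ))⁻¹ := by simp
      _ ≤ ∑ s ∈ Icc 1 q, ((s:ℝ))⁻¹ :=
        sum_le_sum_of_subset_of_nonneg this (fun i _ _ => by positivity)
  exact h1.trans (harmonic_le_one_add_log q)

/-- incomplete quadratic Gauss sums -/
lemma incomplete (p q n : ℕ) (hq : Odd q) (hpq : Nat.Coprime p q) (hn : n ≤ q) :
    ‖Sr ((p:ℝ) / q) n‖ ^ 2 ≤ q * (3 + 2 * Real.log q) := by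
  have hq0 : 0 < q := hq.pos
  have hqR : (0:ℝ) < q := by exact_mod_cast hq0
  have hcop : Nat.Coprime (2 * p) q := by
    rw [Nat.coprime_mul_iff_left]
    exact ⟨Nat.coprime_two_left.mpr hq, hpq⟩
  let f : ℕ → ℝ := fun s => 2 / ‖e (-((s:ℝ) / q)) - 1‖
  have hf0 : ∀ s, 0 ≤ f s := fun s => by positivity
  have hmem : ∀ h ∈ Ico 1 q, (2 * p * h) % q ∈ Ico 1 q := by
    intro h hh
    rw [mem_Ico] at hh ⊢
    refine ⟨?_, Nat.mod_lt _ hq0⟩
    rw [Nat.one_le_iff_ne_zero]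
    intro h0
    have hdvd : q ∣ 2 * p * h := Nat.dvd_of_mod_eq_zero h0
    have := (hcop.symm.dvd_of_dvd_mul_left hdvd)
    have := Nat.le_of_dvd (by omega) this
    omega
  have hinj : Set.InjOn (fun h => (2 * p * h) % q) (Ico 1 q : Finset ℕ) := by
    intro a ha b hb hab
    rw [mem_coe, mem_Ico] at ha hb
    have h1 : 2 * p * a ≡ 2 * p * b [MOD q] := hab
    have h2 : a ≡ b [MOD q] := Nat.ModEq.cancel_left_of_coprime (by
      rw [Nat.gcd_comm]; exact hcop) h1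
    exact Nat.ModEq.eq_of_lt_of_lt h2 ha.2 hb.2
  -- bound of each term
  have hterm : ∀ h ∈ Ico 1 n, ‖∑ m ∈ Ico h n, e (-(2 * ((p:ℝ) / q) * h) * m)‖ ≤ f ((2 * p * h) % q) := by
    intro h hh
    rw [mem_Ico] at hh
    have hh' : h ∈ Ico 1 q := by rw [mem_Ico]; omega
    have hm := hmem h hh'
    rw [mem_Ico] at hm
    have he : e (-(2 * ((p:ℝ) / q) * h)) = e (-((((2 * p * h) % q : ℕ) : ℝ) / q)) := by
      rw [e_neg, e_neg, ← e_frac_mod q _ hq0]
      congr 2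
      push_cast
      ring
    have hne : e (-(2 * ((p:ℝ) / q) * h)) ≠ 1 := by
      rw [he]
      intro hcon
      set s := (2 * p * h) % q with hs
      have hsR : (1:ℝ) ≤ s := by exact_mod_cast hm.1
      have hsR' : (s:ℝ) < q := by exact_mod_cast hm.2
      have h3 := norm_e_sub_one (-((s:ℝ) / q))
      rw [hcon, sub_self, norm_zero] at h3
      have h4 : Real.sin (Real.pi * (-((s:ℝ) / q))) = 0 := by
        have : |Real.sin (Real.pi * (-((s:ℝ) / q)))| = 0 := by linarith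
        exact abs_eq_zero.mp this
      rw [mul_neg, Real.sin_neg, neg_eq_zero] at h4
      have h5 : 0 < Real.sin (Real.pi * ((s:ℝ) / q)) := by
        apply Real.sin_pos_of_pos_of_lt_pi
        · have := Real.pi_pos; positivity
        · have : (s:ℝ) / q < 1 := (div_lt_one hqR).mpr hsR'
          nlinarith [Real.pi_pos]
      linarith
    have hg := geom_bound _ h n hne
    rw [he] at hg
    exact hg
  have hsum1 : ∑ h ∈ Ico 1 n, ‖∑ m ∈ Ico h n, e (-(2 * ((p:ℝ) / q) * h) * m)‖ ≤ ∑ s ∈ Ico 1 q, f s := by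
    calc _ ≤ ∑ h ∈ Ico 1 n, f ((2 * p * h) % q) := sum_le_sum hterm
      _ ≤ ∑ h ∈ Ico 1 q, f ((2 * p * h) % q) := by
          apply sum_le_sum_of_subset_of_nonneg
          · intro x hx; rw [mem_Ico] at hx ⊢; omega
          · intro i _ _; exact hf0 _
      _ = ∑ s ∈ (Ico 1 q).image (fun h => (2 * p * h) % q), f s := by
          rw [sum_image hinj]
      _ ≤ ∑ s ∈ Ico 1 q, f s := by
          apply sum_le_sum_of_subset_of_nonneg
          · intro x hx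
            rw [mem_image] at hx
            obtain ⟨h, hh, rfl⟩ := hx
            exact hmem h hh
          · intro i _ _; exact hf0 _
  have hsum2 : ∑ s ∈ Ico 1 q, f s ≤ q * (1 + Real.log q) := by
    have h1 : ∀ s ∈ Ico 1 q, f s ≤ q / 2 * (1 / (s:ℝ) + 1 / ((q:ℝ) - s)) := by
      intro s hs
      rw [mem_Ico] at hs
      have hsR : (1:ℝ) ≤ s := by exact_mod_cast hs.1
      have hsR' : (s:ℝ) < q := by exact_mod_cast hs.2
      have h2 : ‖e (-((s:ℝ) / q)) - 1‖ = ‖e ((s:ℝ) / q) - 1‖ := by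
        rw [e_neg, ← map_one (starRingEnd ℂ), ← map_sub, Complex.norm_conj]
        simp
      simp only [f]
      rw [h2]
      have h3 := e_sub_one_lower (u := (s:ℝ) / q) (by positivity) ((div_lt_one hqR).mpr hsR')
      have h4 : 2 / ‖e ((s:ℝ) / q) - 1‖ = 2 * (1 / ‖e ((s:ℝ) / q) - 1‖) := by ring
      rw [h4]
      have hqs : (0:ℝ) < q - s := by linarith
      have h5 : (1 / ((s:ℝ) / q) + 1 / (1 - (s:ℝ) / q)) / 4 * 2
          = q / 2 * (1 / (s:ℝ) + 1 / ((q:ℝ) - s)) := by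
        have e1 : 1 - (s:ℝ) / q = ((q:ℝ) - s) / q := by field_simp
        rw [e1]
        have : (s:ℝ) ≠ 0 := by linarith
        field_simp
        ring
      rw [← h5]
      linarith
    have hrefl : ∑ s ∈ Ico 1 q, (1:ℝ) / ((q:ℝ) - s) = ∑ s ∈ Ico 1 q, (1:ℝ) / s := by
      have h := Finset.sum_Ico_reflect (fun s : ℕ => (1:ℝ) / s) 1 (m := q) (n := q) (by omega)
      have e1 : q + 1 - q = 1 := by omega
      have e2 : q + 1 - 1 = q := by omega
      rw [e1, e2] at h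
      rw [← h]
      apply sum_congr rfl
      intro s hs
      rw [mem_Ico] at hs
      rw [Nat.cast_sub (by omega)]
    calc ∑ s ∈ Ico 1 q, f s ≤ ∑ s ∈ Ico 1 q, q / 2 * (1 / (s:ℝ) + 1 / ((q:ℝ) - s)) := sum_le_sum h1
      _ = q / 2 * (∑ s ∈ Ico 1 q, (1:ℝ) / s + ∑ s ∈ Ico 1 q, (1:ℝ) / ((q:ℝ) - s)) := by
          rw [← mul_sum, sum_add_distrib]
      _ = q * ∑ s ∈ Ico 1 q, (1:ℝ) / s := by rw [hrefl]; ring
      _ ≤ q * (1 + Real.log q) := by
          apply mul_le_mul_of_nonneg_left (harm_bound q) hqR.le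
  have hn' : (n:ℝ) ≤ q := by exact_mod_cast hn
  have hw := weyl_ineq ((p:ℝ) / q) n
  nlinarith

/-- complete quadratic Gauss sums of odd modulus -/
lemma complete (p q : ℕ) (hq : Odd q) (hpq : Nat.Coprime p q) :
    ‖Sr ((p:ℝ) / q) q‖ ^ 2 = q := by
  have hq0 : 0 < q := hq.pos
  have : NeZero q := ⟨hq0.ne'⟩
  have hqR : (0:ℝ) < q := by exact_mod_cast hq0
  let ψ : AddChar (ZMod q) ℂ := ZMod.stdAddChar
  have hψ : ψ.IsPrimitive := ZMod.isPrimitive_stdAddChar q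
  have hval : ∀ n : ℕ, ψ ((n : ZMod q)) = e ((n:ℝ) / q) := by
    intro n
    have h := ZMod.stdAddChar_coe (N := q) (n : ℤ)
    push_cast at h
    simp only [ψ]
    rw [h]
    unfold e
    congr 1
    push_cast
    ring
  have hSr : Sr ((p:ℝ) / q) q = ∑ a : ZMod q, ψ ((p : ZMod q) * a ^ 2) := by
    unfold Sr
    apply Finset.sum_bij' (fun (n : ℕ) _ => (n : ZMod q)) (fun a _ => a.val)
    · intro n _; exact mem_univ _
    · intro a _; rw [mem_range]; exact ZMod.val_lt a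
    · intro n hn; rw [mem_range] at hn; exact ZMod.val_natCast_of_lt hn
    · intro a _; exact ZMod.natCast_zmod_val a
    · intro n _
      have h1 := hval (p * n ^ 2)
      push_cast at h1
      rw [h1]
      congr 1
      ring
  have hconj : ∀ a : ZMod q, (starRingEnd ℂ) (ψ a) = ψ (-a) := by
    intro a
    have h1 := hval a.val
    rw [ZMod.natCast_zmod_val] at h1
    rw [h1, ← e_neg]
    have h2 : ψ a * ψ (-a) = 1 := by
      rw [← AddChar.map_add_eq_mul, add_neg_cancel, AddChar.map_zero_eq_one]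
    rw [h1] at h2
    have h3 : e ((a.val:ℝ) / q) * e (-((a.val:ℝ) / q)) = 1 := by
      rw [← e_add, add_neg_cancel, e_zero]
    exact mul_left_cancel₀ (e_ne_zero _) (h3.trans h2.symm)
  have hunit : IsUnit ((2 * p : ℕ) : ZMod q) := by
    rw [ZMod.isUnit_iff_coprime]
    rw [Nat.coprime_mul_iff_left]
    exact ⟨Nat.coprime_two_left.mpr hq, hpq⟩
  have hmain : (Sr ((p:ℝ) / q) q) * (starRingEnd ℂ) (Sr ((p:ℝ) / q) q) = q := by
    rw [hSr, map_sum, sum_mul_sum]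
    have h1 : ∀ b : ZMod q, ∑ a : ZMod q, ψ ((p : ZMod q) * b ^ 2) * (starRingEnd ℂ) (ψ ((p : ZMod q) * a ^ 2))
        = ∑ h : ZMod q, ψ ((p : ZMod q) * b ^ 2) * (starRingEnd ℂ) (ψ ((p : ZMod q) * (b + h) ^ 2)) := by
      intro b
      exact (Fintype.sum_equiv (Equiv.addLeft b) _ _ (fun x => rfl)).symm
    simp_rw [h1]
    rw [sum_comm]
    have h2 : ∀ h : ZMod q, ∑ b : ZMod q, ψ ((p : ZMod q) * b ^ 2) *
        (starRingEnd ℂ) (ψ ((p : ZMod q) * (b + h) ^ 2))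
        = ψ (-((p : ZMod q) * h ^ 2)) * ∑ b : ZMod q, ψ (b * (-(((2 * p : ℕ) : ZMod q) * h))) := by
      intro h
      rw [mul_sum]
      apply sum_congr rfl
      intro b _
      rw [hconj, ← AddChar.map_add_eq_mul, ← AddChar.map_add_eq_mul]
      congr 1
      push_cast
      ring
    simp_rw [h2]
    simp_rw [AddChar.sum_mulShift _ hψ]
    rw [sum_eq_single (0 : ZMod q)]
    · simp
    · intro h _ hh
      rw [if_neg]
      · simp
      · rw [neg_eq_zero]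
        intro h0
        exact hh ((hunit.mul_right_eq_zero).mp h0)
    · simp
  have h5 := Complex.mul_conj (Sr ((p:ℝ) / q) q)
  rw [hmain, Complex.normSq_eq_norm_sq] at h5
  have h6 : ((‖Sr ((p:ℝ) / q) q‖ ^ 2 : ℝ) : ℂ) = ((q:ℝ) : ℂ) := by rw [← h5]; simp
  exact_mod_cast h6

/-- periodicity -/
lemma Sr_add (p q m r : ℕ) (hq : 0 < q) :
    Sr ((p:ℝ) / q) (m * q + r) = m * Sr ((p:ℝ) / q) q + Sr ((p:ℝ) / q) r := by
  have hq' : (q:ℝ) ≠ 0 := by positivity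
  have hper : ∀ n : ℕ, e ((p:ℝ) / q * ((q + n : ℕ) : ℝ) ^ 2) = e ((p:ℝ) / q * (n:ℝ) ^ 2) := by
    intro n
    have : (p:ℝ) / q * ((q + n : ℕ) : ℝ) ^ 2 = (p:ℝ) / q * (n:ℝ) ^ 2 + ((p * q + 2 * p * n : ℕ) : ℤ) := by
      push_cast
      field_simp
      ring
    rw [this, e_add_int]
  have hshift : ∀ M : ℕ, Sr ((p:ℝ) / q) (q + M) = Sr ((p:ℝ) / q) q + Sr ((p:ℝ) / q) M := by
    intro M
    unfold Sr
    rw [sum_range_add]
    congr 1
    exact sum_congr rfl (fun n _ => hper n)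
  induction m with
  | zero => simp
  | succ m ih =>
    have : (m + 1) * q + r = q + (m * q + r) := by ring
    rw [this, hshift, ih]
    push_cast
    ring

/-- the error term -/
noncomputable def Er (q : ℕ) : ℝ := √(q * (3 + 2 * Real.log q))

lemma rational_bound (p q n : ℕ) (hq : Odd q) (hpq : Nat.Coprime p q) :
    ‖Sr ((p:ℝ) / q) n‖ ≤ n / √q + Er q := by
  have hq0 : 0 < q := hq.pos
  have hqR : (0:ℝ) < q := by exact_mod_cast hq0
  have h1 : n = (n / q) * q + n % q := by rw [mul_comm]; exact (Nat.div_add_mod n q).symm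
  conv_lhs => rw [h1]
  rw [Sr_add _ _ _ _ hq0]
  refine (norm_add_le _ _).trans (add_le_add ?_ ?_)
  · rw [norm_mul, Complex.norm_natCast]
    have h2 : ‖Sr ((p:ℝ) / q) q‖ = √q := by
      have h := congrArg Real.sqrt (complete p q hq hpq)
      rwa [Real.sqrt_sq (norm_nonneg _)] at h
    rw [h2]
    have h3 : ((n / q : ℕ) : ℝ) ≤ n / q := Nat.cast_div_le
    calc ((n / q : ℕ) : ℝ) * √q ≤ (n / q) * √q := by gcongr
      _ = n / √q := by
        have := Real.mul_self_sqrt hqR.le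
        have hs : 0 < √(q:ℝ) := Real.sqrt_pos.mpr hqR
        rw [div_mul_eq_mul_div, div_eq_div_iff hqR.ne' hs.ne']
        rw [mul_assoc, this]
  · unfold Er
    apply Real.le_sqrt_of_sq_le
    exact incomplete p q _ hq hpq (Nat.mod_lt _ hq0).le

/-- comparison with the rational sum -/
lemma compare (p q N : ℕ) (hq : Odd q) (hpq : Nat.Coprime p q) (θ : ℝ) :
    ‖Sr θ N - e ((θ - p / q) * (N:ℝ) ^ 2) * Sr ((p:ℝ) / q) N‖ ≤
      2 * Real.pi * |θ - p / q| * (N:ℝ) ^ 2 * (N / √q + Er q) := by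
  set β : ℝ := θ - p / q with hβ
  have key : ∀ M : ℕ, M ≤ N → ‖Sr θ M - e (β * (M:ℝ) ^ 2) * Sr ((p:ℝ) / q) M‖ ≤
      2 * Real.pi * |β| * (M:ℝ) ^ 2 * (N / √q + Er q) := by
    intro M
    induction M with
    | zero => intro _; simp [Sr]
    | succ M ih =>
      intro hM
      have ih' := ih (by omega)
      have h1 : e (θ * (M:ℝ) ^ 2) = e (β * (M:ℝ) ^ 2) * e ((p:ℝ) / q * (M:ℝ) ^ 2) := by
        rw [← e_add]; congr 1; rw [hβ]; ring
      have h2 : Sr θ (M + 1) - e (β * ((M + 1 : ℕ) : ℝ) ^ 2) * Sr ((p:ℝ) / q) (M + 1)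
          = (Sr θ M - e (β * (M:ℝ) ^ 2) * Sr ((p:ℝ) / q) M)
          + (e (β * (M:ℝ) ^ 2) - e (β * ((M + 1 : ℕ) : ℝ) ^ 2)) * Sr ((p:ℝ) / q) (M + 1) := by
        rw [Sr_succ θ M, h1, Sr_succ ((p:ℝ) / q) M]
        ring
      rw [h2]
      refine (norm_add_le _ _).trans ?_
      have h3 : ‖(e (β * (M:ℝ) ^ 2) - e (β * ((M + 1 : ℕ) : ℝ) ^ 2)) * Sr ((p:ℝ) / q) (M + 1)‖
          ≤ 2 * Real.pi * |β| * (2 * M + 1) * (N / √q + Er q) := by
        rw [norm_mul]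
        have h4 := norm_e_sub (β * (M:ℝ) ^ 2) (β * ((M + 1 : ℕ) : ℝ) ^ 2)
        have h5 : |β * (M:ℝ) ^ 2 - β * ((M + 1 : ℕ) : ℝ) ^ 2| = |β| * (2 * M + 1) := by
          have : β * (M:ℝ) ^ 2 - β * ((M + 1 : ℕ) : ℝ) ^ 2 = -(β * (2 * M + 1)) := by
            push_cast; ring
          rw [this, abs_neg, abs_mul, abs_of_pos (by positivity : (0:ℝ) < 2 * M + 1)]
        rw [h5] at h4
        have h6 := rational_bound p q (M + 1) hq hpq
        have h7 : (((M + 1 : ℕ) : ℝ)) / √q ≤ N / √q := by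
          gcongr
        calc _ ≤ (2 * Real.pi * (|β| * (2 * M + 1))) * (N / √q + Er q) := by
              apply mul_le_mul h4 (by linarith) (norm_nonneg _)
              have := Real.pi_pos
              positivity
          _ = _ := by ring
      calc _ ≤ 2 * Real.pi * |β| * (M:ℝ) ^ 2 * (N / √q + Er q)
            + 2 * Real.pi * |β| * (2 * M + 1) * (N / √q + Er q) := add_le_add ih' h3
        _ = 2 * Real.pi * |β| * (((M + 1 : ℕ) : ℝ)) ^ 2 * (N / √q + Er q) := by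
            push_cast; ring
  exact key N le_rfl

/-- the sum of the problem -/
noncomputable def S (θ : ℝ) (N : ℕ) : ℂ := ∑ n ∈ Icc 1 N, e (θ * (n:ℝ) ^ 2)

lemma S_eq (θ : ℝ) (N : ℕ) : S θ N = Sr θ N + (e (θ * (N:ℝ) ^ 2) - 1) := by
  unfold S Sr
  have h1 : ∑ n ∈ range (N + 1), e (θ * (n:ℝ) ^ 2) = 1 + ∑ n ∈ Icc 1 N, e (θ * (n:ℝ) ^ 2) := by
    rw [range_eq_Ico, sum_eq_sum_Ico_succ_bot (by omega)]
    have : Ico (0 + 1) (N + 1) = Icc 1 N := by ext x; simp only [mem_Ico, mem_Icc]; omega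
    rw [this]
    simp [e_zero]
  have h2 := sum_range_succ (fun n : ℕ => e (θ * (n:ℝ) ^ 2)) N
  rw [h1] at h2
  linear_combination h2

lemma S_close (θ : ℝ) (N : ℕ) : ‖S θ N - Sr θ N‖ ≤ 2 := by
  rw [S_eq, add_sub_cancel_left]
  calc _ ≤ ‖e (θ * (N:ℝ) ^ 2)‖ + ‖(1:ℂ)‖ := norm_sub_le _ _
    _ = 2 := by rw [norm_e]; norm_num

/-- upper bound -/
lemma upper (p q N : ℕ) (hq : Odd q) (hpq : Nat.Coprime p q) (θ : ℝ)
    (hβ : |θ - p / q| * (N:ℝ) ^ 2 ≤ 1) :
    ‖S θ N‖ ≤ 8 * (N / √q + Er q) + 2 := by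
  have h1 := compare p q N hq hpq θ
  have h2 := rational_bound p q N hq hpq
  have h3 := S_close θ N
  have hpi : Real.pi ≤ 3.15 := by linarith [Real.pi_lt_d2]
  set M := (N:ℝ) / √q + Er q with hM
  have hM0 : 0 ≤ M := by rw [hM]; unfold Er; positivity
  have h4 : 2 * Real.pi * |θ - p / q| * (N:ℝ) ^ 2 * M ≤ 7 * M := by
    have h5 : 2 * Real.pi * |θ - p / q| * (N:ℝ) ^ 2 ≤ 7 := by
      have h6 : 2 * Real.pi * |θ - p / q| * (N:ℝ) ^ 2 = 2 * Real.pi * (|θ - p / q| * (N:ℝ) ^ 2) := by ring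
      rw [h6]
      nlinarith [Real.pi_pos, mul_nonneg (abs_nonneg (θ - p / q)) (sq_nonneg (N:ℝ))]
    exact mul_le_mul_of_nonneg_right h5 hM0
  have h5 : ‖e ((θ - p / q) * (N:ℝ) ^ 2) * Sr ((p:ℝ) / q) N‖ ≤ M := by
    rw [norm_mul, norm_e, one_mul]; exact h2
  have h6 : ‖Sr θ N‖ ≤ 8 * M := by
    calc ‖Sr θ N‖ = ‖(Sr θ N - e ((θ - p / q) * (N:ℝ) ^ 2) * Sr ((p:ℝ) / q) N)
          + e ((θ - p / q) * (N:ℝ) ^ 2) * Sr ((p:ℝ) / q) N‖ := by rw [sub_add_cancel]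
      _ ≤ _ := norm_add_le _ _
      _ ≤ 7 * M + M := add_le_add (h1.trans h4) h5
      _ = 8 * M := by ring
  calc ‖S θ N‖ = ‖(S θ N - Sr θ N) + Sr θ N‖ := by rw [sub_add_cancel]
    _ ≤ 2 + 8 * M := (norm_add_le _ _).trans (add_le_add h3 h6)
    _ = _ := by ring

/-- lower bound at multiples of `q` -/
lemma lower (p q m : ℕ) (hq : Odd q) (hpq : Nat.Coprime p q) (θ : ℝ)
    (hβ : |θ - p / q| * ((m * q : ℕ) : ℝ) ^ 2 ≤ 1 / 36)
    (hE : Er q ≤ m * √q) :
    m * √q / 2 - 2 ≤ ‖S θ (m * q)‖ := by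
  have hq0 : 0 < q := hq.pos
  have hqR : (0:ℝ) < q := by exact_mod_cast hq0
  have hs : 0 < √(q:ℝ) := Real.sqrt_pos.mpr hqR
  have hss : √(q:ℝ) * √q = q := Real.mul_self_sqrt hqR.le
  have h1 := compare p q (m * q) hq hpq θ
  have h3 := S_close θ (m * q)
  have hpi : Real.pi ≤ 3.15 := by linarith [Real.pi_lt_d2]
  have h2 : ‖Sr ((p:ℝ) / q) (m * q)‖ = m * √q := by
    have := Sr_add p q m 0 hq0
    rw [add_zero] at this
    rw [this]
    have h0 : Sr ((p:ℝ) / q) 0 = 0 := by simp [Sr]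
    rw [h0, add_zero, norm_mul, Complex.norm_natCast]
    congr 1
    have h := congrArg Real.sqrt (complete p q hq hpq)
    rwa [Real.sqrt_sq (norm_nonneg _)] at h
  have hdiv : ((m * q : ℕ) : ℝ) / √q = m * √q := by
    rw [div_eq_iff hs.ne', mul_assoc, hss]; push_cast; ring
  rw [hdiv] at h1
  set W := (m:ℝ) * √q with hW
  have hW0 : 0 ≤ W := by rw [hW]; positivity
  have h4 : 2 * Real.pi * |θ - p / q| * ((m * q : ℕ) : ℝ) ^ 2 * (W + Er q) ≤ W / 2 := by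
    have h5 : 2 * Real.pi * |θ - p / q| * ((m * q : ℕ) : ℝ) ^ 2 ≤ 1 / 4 := by
      have h6 : 2 * Real.pi * |θ - p / q| * ((m * q : ℕ) : ℝ) ^ 2
          = 2 * Real.pi * (|θ - p / q| * ((m * q : ℕ) : ℝ) ^ 2) := by ring
      rw [h6]
      nlinarith [Real.pi_pos, mul_nonneg (abs_nonneg (θ - p / q)) (sq_nonneg ((m * q : ℕ) : ℝ))]
    have h7 : 0 ≤ W + Er q := by unfold Er; positivity
    calc _ ≤ 1 / 4 * (W + Er q) := mul_le_mul_of_nonneg_right h5 h7
      _ ≤ W / 2 := by linarith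
  have h5 : ‖e ((θ - p / q) * ((m * q : ℕ) : ℝ) ^ 2) * Sr ((p:ℝ) / q) (m * q)‖ = W := by
    rw [norm_mul, norm_e, one_mul]; exact h2
  have h6 : W - W / 2 ≤ ‖Sr θ (m * q)‖ := by
    have h7 := norm_sub_norm_le (e ((θ - p / q) * ((m * q : ℕ) : ℝ) ^ 2) * Sr ((p:ℝ) / q) (m * q))
      (Sr θ (m * q))
    rw [h5, norm_sub_rev] at h7
    linarith [h1.trans h4]
  have h8 := norm_sub_norm_le (Sr θ (m * q)) (S θ (m * q))
  rw [norm_sub_rev] at h8
  linarith

end Pool.Agent.X86.GS
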